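import Pool.Agent.Helper8.KT.Sheet

/-! Row REC of the sheet KT. -/

namespace Pool.Agent.Helper8.KT

theorem stREC : ST_ST → ST_REC := by
  intro hST d hd f hf D hD
  have step : ∀ (n : ℕ) (G : {G : (ℕ → ℝ) → ℝ // Lip1 n G ∧ Inv d f D n G}),
      ∃ G' : {G : (ℕ → ℝ) → ℝ // Lip1 (n + 1) G ∧ Inv d f D (n + 1) G},
        ∀ y, Kat d y → (∃ j ≤ n, y j ≤ D) → G'.1 y = G.1 y := by
    intro n G
    obtain ⟨G', h1, h2, h3⟩ := hST d hd f hf D hD n G.1 G.2.1 G.2.2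
    exact ⟨⟨G', h1, h2⟩, h3⟩
  choose F hF using step
  have h0L : Lip1 0 (fun y : ℕ → ℝ => f 0 - y 0) := by
    intro y y' r h
    have h0 := h 0 le_rfl
    have e : (f 0 - y 0) - (f 0 - y' 0) = -(y 0 - y' 0) := by ring
    show |(f 0 - y 0) - (f 0 - y' 0)| ≤ r
    rw [e, abs_neg]
    exact h0
  have h0I : Inv d f D 0 (fun y : ℕ → ℝ => f 0 - y 0) := by
    intro y hy hj j
    obtain ⟨i, hi, hiD⟩ := hj
    have hi0 : i = 0 := Nat.le_zero.mp hi
    subst hi0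
    have h1 := (hy 0 j).1
    have h2 := (hy 0 j).2
    have h3 := abs_le.mp (hf 0 j)
    have h4 := abs_le.mp h1
    show f j - y j - 2 * D ≤ f 0 - y 0 ∧ f 0 - y 0 ≤ f j + y j + 2 * D
    constructor
    · linarith [h3.1, h3.2]
    · linarith [h3.1, h3.2]
  let G : (n : ℕ) → {G : (ℕ → ℝ) → ℝ // Lip1 n G ∧ Inv d f D n G} := fun n =>
    Nat.rec (motive := fun n => {G : (ℕ → ℝ) → ℝ // Lip1 n G ∧ Inv d f D n G})
      ⟨fun y : ℕ → ℝ => f 0 - y 0, h0L, h0I⟩ (fun n G => F n G) n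
  have hG : ∀ n, ∀ y, Kat d y → (∃ j ≤ n, y j ≤ D) → (G (n + 1)).1 y = (G n).1 y := by
    intro n
    exact hF n (G n)
  refine ⟨fun n => (G n).1, fun n => (G n).2.1, fun n => (G n).2.2, ?_⟩
  intro m n hmn y hy hj
  induction n, hmn using Nat.le_induction with
  | base => rfl
  | succ n hmn ih =>
    obtain ⟨j, hjm, hjD⟩ := hj
    have := hG n y hy ⟨j, le_trans hjm hmn, hjD⟩
    exact this.trans ih

end Pool.Agent.Helper8.KT
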